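import Pool.Agent.Q91.FamTop
import Pool.Agent.Q91.FinSign

/-!
# The composition of an open homomorphism and a semitopological isomorphism
-/

set_option autoImplicit false

open Set Filter Topology Equiv Pool.Agent.Q91.FamTop Pool.Agent.Q91.FinSign

universe u

namespace Pool.Agent.Results.MP_c09033_al.NotSemitopological

/-- Semitopological homomorphisms: continuous surjective homomorphisms `f : G → H` which extend to
an open continuous homomorphism of a topological group in which `G` is embedded as a normal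
subgroup with the induced topology. -/
def Semitop {G H : Type} [Group G] [TopologicalSpace G] [Group H] [TopologicalSpace H]
    (f : G →* H) : Prop :=
  Continuous f ∧ Function.Surjective f ∧
    ∃ (G' : Type u) (_ : Group G') (_ : TopologicalSpace G') (_ : IsTopologicalGroup G')
      (j : G →* G') (f' : G' →* H), IsEmbedding j ∧ j.range.Normal ∧ Continuous f' ∧
      IsOpenMap f' ∧ ∀ g, f' (j g) = f g

/-- permutation of the coordinates -/
def act (h : FSym) (A : ℕ → ZMod 2) : ℕ → ZMod 2 := fun i => A ((h : Perm ℕ)⁻¹ i)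

theorem act_mul (h k : FSym) (A : ℕ → ZMod 2) : act (h * k) A = act h (act k A) := by
  funext i
  show A (((h * k : FSym) : Perm ℕ)⁻¹ i) = A ((k : Perm ℕ)⁻¹ ((h : Perm ℕ)⁻¹ i))
  rw [Subgroup.coe_mul, mul_inv_rev, Perm.mul_apply]

theorem act_one (A : ℕ → ZMod 2) : act 1 A = A := by
  funext i
  show A (((1 : FSym) : Perm ℕ)⁻¹ i) = A i
  simp

theorem act_add (h : FSym) (A B : ℕ → ZMod 2) : act h (A + B) = act h A + act h B := rfl

/-- the semidirect product -/
@[ext] structure GG where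
  /-- the vector part -/
  A : ℕ → ZMod 2
  /-- the permutation part -/
  h : FSym

instance : Mul GG := ⟨fun x y => ⟨x.A + act x.h y.A, x.h * y.h⟩⟩
instance : One GG := ⟨⟨0, 1⟩⟩
instance : Inv GG := ⟨fun x => ⟨-act x.h⁻¹ x.A, x.h⁻¹⟩⟩

theorem mul_A (x y : GG) : (x * y).A = x.A + act x.h y.A := rfl
theorem mul_h (x y : GG) : (x * y).h = x.h * y.h := rfl
theorem one_A : (1 : GG).A = 0 := rfl
theorem one_h : (1 : GG).h = 1 := rfl
theorem inv_A (x : GG) : x⁻¹.A = -act x.h⁻¹ x.A := rfl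
theorem inv_h (x : GG) : x⁻¹.h = x.h⁻¹ := rfl

instance : Group GG := Group.ofLeftAxioms
  (fun x y z => by
    apply GG.ext
    · rw [mul_A, mul_A, mul_A, mul_A, mul_h, act_mul, act_add, add_assoc]
    · rw [mul_h, mul_h, mul_h, mul_h, mul_assoc])
  (fun x => by
    apply GG.ext
    · rw [mul_A, one_A, one_h, act_one, zero_add]
    · rw [mul_h, one_h, one_mul])
  (fun x => by
    apply GG.ext
    · rw [mul_A, inv_A, inv_h, one_A, neg_add_cancel]
    · rw [mul_h, inv_h, one_h, inv_mul_cancel])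

instance : TopologicalSpace GG := ⊥
instance : DiscreteTopology GG := ⟨rfl⟩

/-- the finitary permutations with the discrete topology -/
def KD : Type := FSym
instance : Group KD := inferInstanceAs (Group FSym)
instance : TopologicalSpace KD := ⊥
instance : DiscreteTopology KD := ⟨rfl⟩

/-- the finitary permutations with the pointwise topology -/
def KP : Type := FSym
instance : Group KP := inferInstanceAs (Group FSym)

/-- the underlying permutation -/
def pm (x : KP) : Perm ℕ := ((show FSym from x) : Perm ℕ)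

theorem pm_mul (x y : KP) : pm (x * y) = pm x * pm y := rfl
theorem pm_inv (x : KP) : pm x⁻¹ = (pm x)⁻¹ := rfl
theorem pm_inj {x y : KP} (h : pm x = pm y) : x = y := Subtype.ext h

/-- coordinates -/
def cP (i : ℕ) (x : KP) : ℕ × ℕ := (pm x i, (pm x)⁻¹ i)

theorem cP_eq {i : ℕ} {x y : KP} : cP i x = cP i y ↔ pm x i = pm y i ∧ (pm x)⁻¹ i = (pm y)⁻¹ i := by
  simp [cP, Prod.ext_iff]

instance : TopologicalSpace KP := famTop cP

instance : IsTopologicalGroup KP := by
  classical
  refine isTopologicalGroup cP ?_ ?_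
  · intro i g h
    refine ⟨{i, (pm g)⁻¹ i, pm h i}, fun g' h' hg hh => ?_⟩
    have g1 := cP_eq.mp (hg i (by simp))
    have g2 := cP_eq.mp (hg (pm h i) (by simp))
    have h1 := cP_eq.mp (hh i (by simp))
    have h2 := cP_eq.mp (hh ((pm g)⁻¹ i) (by simp))
    rw [cP_eq, pm_mul, pm_mul, mul_inv_rev, mul_inv_rev, Perm.mul_apply, Perm.mul_apply,
      Perm.mul_apply, Perm.mul_apply, h1.1, g2.1, g1.2, h2.2]
    exact ⟨rfl, rfl⟩
  · intro i g
    refine ⟨{i}, fun g' hg => ?_⟩
    have g1 := cP_eq.mp (hg i (by simp))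
    rw [cP_eq, pm_inv, pm_inv, inv_inv, inv_inv]
    exact ⟨g1.2, g1.1⟩

/-- the covering group of `KP` -/
def CC : Type := KP × KP
instance : Group CC := inferInstanceAs (Group (KP × KP))

/-- coordinates -/
def cC (i : ℕ) (z : CC) : KP × ℕ × ℕ := (z.1 * z.2⁻¹, pm z.1 i, (pm z.1)⁻¹ i)

theorem cC_eq {i : ℕ} {x y : CC} : cC i x = cC i y ↔ x.1 * x.2⁻¹ = y.1 * y.2⁻¹ ∧
    pm x.1 i = pm y.1 i ∧ (pm x.1)⁻¹ i = (pm y.1)⁻¹ i := by
  simp [cC, Prod.ext_iff]

instance : TopologicalSpace CC := famTop cC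

/-- the support -/
noncomputable def spt (s : KP) : Finset ℕ := sp s

theorem fix_of_not_mem {s : KP} {i : ℕ} (h : i ∉ spt s) : pm s i = i := by
  by_contra hne
  exact h (sup_sp s i hne)

theorem conj_eq {x y s : KP} (h : ∀ i ∈ spt s, pm x i = pm y i) : x * s * x⁻¹ = y * s * y⁻¹ := by
  have h1 : (y⁻¹ * x) * s = s * (y⁻¹ * x) := by
    apply pm_inj
    have hfix : ∀ i ∈ spt s, (pm y)⁻¹ (pm x i) = i := fun i hi => by
      rw [h i hi]
      exact (pm y).symm_apply_apply i
    ext i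
    show (pm y)⁻¹ (pm x (pm s i)) = pm s ((pm y)⁻¹ (pm x i))
    by_cases hi : i ∈ spt s
    · have h2 : pm s i ∈ spt s := by
        by_contra hcon
        have h3 := fix_of_not_mem hcon
        have h4 : pm s i = i := (pm s).injective h3
        exact hcon (by rw [h4]; exact hi)
      rw [hfix _ h2, hfix _ hi]
    · rw [fix_of_not_mem hi]
      have h2 : (pm y)⁻¹ (pm x i) ∉ spt s := by
        intro hcon
        have h3 := hfix _ hcon
        have h4 : pm x ((pm y)⁻¹ (pm x i)) = pm x i := by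
          have := congrArg (pm y) h3
          simpa using this
        have h5 := (pm x).injective h4
        rw [h5] at hcon
        exact hi hcon
      rw [fix_of_not_mem h2]
  calc x * s * x⁻¹ = y * ((y⁻¹ * x) * s) * x⁻¹ := by group
    _ = y * (s * (y⁻¹ * x)) * x⁻¹ := by rw [h1]
    _ = y * s * y⁻¹ := by group

instance : IsTopologicalGroup CC := by
  classical
  refine isTopologicalGroup cC ?_ ?_
  · intro i g h
    refine ⟨{i, (pm g.1)⁻¹ i, pm h.1 i} ∪ spt (h.1 * h.2⁻¹), fun g' h' hg hh => ?_⟩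
    have g1 := cC_eq.mp (hg i (by simp))
    have g2 := cC_eq.mp (hg (pm h.1 i) (by simp))
    have h1 := cC_eq.mp (hh i (by simp))
    have h2 := cC_eq.mp (hh ((pm g.1)⁻¹ i) (by simp))
    rw [cC_eq]
    refine ⟨?_, ?_⟩
    · have e : ∀ a b : CC, (a * b).1 * (a * b).2⁻¹ = (a.1 * (b.1 * b.2⁻¹) * a.1⁻¹) * (a.1 * a.2⁻¹) := by
        intro a b
        show a.1 * b.1 * (a.2 * b.2)⁻¹ = _
        group
      rw [e, e, g1.1, h1.1]
      congr 1
      exact conj_eq fun j hj => (cC_eq.mp (hg j (Finset.mem_union_right _ hj))).2.1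
    · show pm (g'.1 * h'.1) i = pm (g.1 * h.1) i ∧ (pm (g'.1 * h'.1))⁻¹ i = (pm (g.1 * h.1))⁻¹ i
      rw [pm_mul, pm_mul, mul_inv_rev, mul_inv_rev, Perm.mul_apply, Perm.mul_apply,
        Perm.mul_apply, Perm.mul_apply, h1.2.1, g2.2.1, g1.2.2, h2.2.2]
      exact ⟨rfl, rfl⟩
  · intro i g
    refine ⟨{i} ∪ spt (g.1 * g.2⁻¹)⁻¹, fun g' hg => ?_⟩
    have g1 := cC_eq.mp (hg i (by simp))
    rw [cC_eq]
    refine ⟨?_, ?_⟩
    · have e : ∀ a : CC, (a⁻¹).1 * (a⁻¹).2⁻¹ = a.1⁻¹ * (a.1 * a.2⁻¹)⁻¹ * a.1⁻¹⁻¹ := by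
        intro a
        show a.1⁻¹ * (a.2⁻¹)⁻¹ = _
        group
      rw [e, e, g1.1]
      refine conj_eq fun j hj => ?_
      rw [pm_inv, pm_inv]
      exact (cC_eq.mp (hg j (Finset.mem_union_right _ hj))).2.2
    · show pm (g'.1⁻¹) i = pm (g.1⁻¹) i ∧ (pm (g'.1⁻¹))⁻¹ i = (pm (g.1⁻¹))⁻¹ i
      rw [pm_inv, pm_inv, inv_inv, inv_inv]
      exact ⟨g1.2.2, g1.2.1⟩

/-- the identity from the discrete to the pointwise topology -/
def f2 : KD →* KP := MonoidHom.id FSym

theorem semitop_f2 : Semitop.{0} f2 := by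
  classical
  refine ⟨continuous_of_discreteTopology, Function.surjective_id, CC, inferInstance, inferInstance,
    inferInstance, (MonoidHom.inl KP KP).comp f2, MonoidHom.fst KP KP, ?_, ?_, ?_, ?_, ?_⟩
  · have hinj : Function.Injective ((MonoidHom.inl KP KP).comp f2 : KD →* CC) := by
      intro x y h
      exact congrArg Prod.fst h
    refine ⟨⟨?_⟩, hinj⟩
    symm
    refine eq_bot_of_singletons_open fun x => ?_
    refine ⟨{z : CC | (cC 0 z).1 = f2 x}, isOpen_fiber cC 0 (fun p => p.1 = f2 x), ?_⟩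
    ext y
    show f2 y * (1 : KP)⁻¹ = f2 x ↔ y = x
    rw [inv_one, mul_one]
    rfl
  · constructor
    rintro _ ⟨x, rfl⟩ g
    exact ⟨(show KD from g.1 * f2 x * g.1⁻¹), Prod.ext rfl (by
      show (1 : KP) = g.2 * 1 * g.2⁻¹
      group)⟩
  · refine continuous_to cP _ fun i z => ?_
    exact (mem_nhds_iff' cC).mpr ⟨{i}, fun h hh => by
      have := cC_eq.mp (hh i (by simp))
      exact cP_eq.mpr this.2⟩
  · intro U hU
    rintro _ ⟨z, hz, rfl⟩
    obtain ⟨S, hS⟩ := hU z hz
    refine ⟨S, fun x hx => ?_⟩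
    have hz' : ((x, (z.1 * z.2⁻¹)⁻¹ * x) : CC) ∈ U := by
      refine hS _ fun s hs => ?_
      refine cC_eq.mpr ⟨?_, cP_eq.mp (hx s hs)⟩
      show x * ((z.1 * z.2⁻¹)⁻¹ * x)⁻¹ = z.1 * z.2⁻¹
      group
    exact ⟨_, hz', rfl⟩
  · intro x
    rfl

/-- the projection of the semidirect product -/
def f1 : GG →* KD where
  toFun x := x.h
  map_one' := rfl
  map_mul' _ _ := rfl

theorem not_semitop : ¬ Semitop.{u} (f2.comp f1) := by
  classical
  rintro ⟨-, -, G', _, _, _, j, f', hj, hn, hc, ho, hf⟩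
  -- the special element
  let w : GG := ⟨fun i => if i % 2 = 0 then 1 else 0, 1⟩
  obtain ⟨U, hU, hU1⟩ : ∃ U : Set G', IsOpen U ∧ j ⁻¹' U = {1} :=
    hj.isInducing.isOpen_iff.mp (isOpen_discrete ({1} : Set GG))
  have h1U : (1 : G') ∈ U := by
    have : (1 : GG) ∈ j ⁻¹' U := by
      rw [hU1]
      rfl
    simpa using this
  let W : Set G' := (fun x : G' => x * j w * x⁻¹ * (j w)⁻¹) ⁻¹' U
  have hW : IsOpen W := hU.preimage (by fun_prop)
  have h1W : (1 : G') ∈ W := by
    show (1 : G') * j w * 1⁻¹ * (j w)⁻¹ ∈ U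
    simpa using h1U
  have hfW : IsOpen (f' '' W) := ho W hW
  obtain ⟨S, hS⟩ := hfW 1 ⟨1, h1W, map_one f'⟩
  obtain ⟨n, hn2, hnS⟩ : ∃ n, n % 2 = 0 ∧ ∀ s ∈ S, s < n := by
    refine ⟨2 * (S.sup id + 1), by omega, fun s hs => ?_⟩
    have : id s ≤ S.sup id := Finset.le_sup (f := id) hs
    simp only [id] at this
    omega
  obtain ⟨x, hxW, hx⟩ : (show KP from tp n (n + 1)) ∈ f' '' W := by
    refine hS _ fun s hs => ?_
    have := hnS s hs
    rw [cP_eq]
    show swap n (n + 1) s = s ∧ (swap n (n + 1))⁻¹ s = s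
    rw [swap_inv, swap_apply_of_ne_of_ne (by omega) (by omega)]
    exact ⟨rfl, rfl⟩
  -- `x` commutes with `j w`
  have hxw : x * j w * x⁻¹ = j w := by
    have h2 : x * j w * x⁻¹ ∈ j.range := hn.conj_mem _ ⟨w, rfl⟩ x
    obtain ⟨g, hg⟩ := h2
    have h3 : j (g * w⁻¹) ∈ U := by
      rw [map_mul, map_inv, hg]
      exact hxW
    have h4 : g * w⁻¹ ∈ j ⁻¹' U := h3
    rw [hU1] at h4
    have h5 : g = w := mul_inv_eq_one.mp h4
    rw [← hg, h5]
  -- a permutation fixing `w`
  let h : GG := ⟨0, tp n (n + 2)⟩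
  have hw : h * w = w * h := by
    apply GG.ext
    · rw [mul_A, mul_A]
      funext i
      show (0 : ZMod 2) + (if ((tp n (n + 2) : FSym) : Perm ℕ)⁻¹ i % 2 = 0 then 1 else 0) =
        (if i % 2 = 0 then 1 else 0) + act 1 0 i
      rw [act_one, tp_coe, swap_inv]
      by_cases h1 : i = n
      · subst h1
        rw [swap_apply_left, if_pos (by omega), if_pos (by omega)]
        simp
      · by_cases h2 : i = n + 2
        · subst h2
          rw [swap_apply_right, if_pos (by omega), if_pos (by omega)]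
          simp
        · rw [swap_apply_of_ne_of_ne h1 h2]
          simp
    · rw [mul_h, mul_h]
      show tp n (n + 2) * 1 = 1 * tp n (n + 2)
      rw [mul_one, one_mul]
  obtain ⟨g, hg⟩ : x * j h * x⁻¹ ∈ j.range := hn.conj_mem _ ⟨h, rfl⟩ x
  have hcomm : j (g * w) = j (w * g) := by
    rw [map_mul, map_mul, hg]
    calc x * j h * x⁻¹ * j w = x * j h * x⁻¹ * (x * j w * x⁻¹) := by rw [hxw]
      _ = x * (j h * j w) * x⁻¹ := by group
      _ = x * (j w * j h) * x⁻¹ := by rw [← map_mul, hw, map_mul]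
      _ = (x * j w * x⁻¹) * (x * j h * x⁻¹) := by group
      _ = j w * (x * j h * x⁻¹) := by rw [hxw]
  have hgw : g * w = w * g := hj.injective hcomm
  have hgh : g.h = tp n (n + 1) * tp n (n + 2) * (tp n (n + 1))⁻¹ := by
    have h2 := congrArg f' hg
    rw [hf, map_mul, map_mul, map_inv, hx, hf] at h2
    exact h2
  have h2 := congrFun (congrArg GG.A hgw) (n + 1)
  have h3 : g.A (n + 1) + (if (g.h : Perm ℕ)⁻¹ (n + 1) % 2 = 0 then 1 else 0) =
      (if (n + 1) % 2 = 0 then 1 else 0) + act 1 g.A (n + 1) := h2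
  rw [act_one, hgh, if_neg (show ¬ (n + 1) % 2 = 0 by omega), zero_add] at h3
  have h4 : ((tp n (n + 1) * tp n (n + 2) * (tp n (n + 1))⁻¹ : FSym) : Perm ℕ)⁻¹ (n + 1) = n + 2 := by
    rw [Perm.inv_eq_iff_eq]
    rw [Subgroup.coe_mul, Subgroup.coe_mul, Subgroup.coe_inv, tp_coe, tp_coe, swap_inv,
      Perm.mul_apply, Perm.mul_apply, swap_apply_of_ne_of_ne (a := n) (b := n + 1) (x := n + 2)
        (by omega) (by omega), swap_apply_right, swap_apply_left]
  rw [h4, if_pos (by omega)] at h3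
  have : ∀ a : ZMod 2, a + 1 ≠ a := by decide
  exact this _ h3

/-- Q1 has a negative answer: there are topological groups `G`, `K`, `H`, an open continuous
surjective homomorphism `f₁ : G → K` and a semitopological isomorphism `f₂ : K → H` such that
`f₂ ∘ f₁` is not semitopological. -/
theorem result : ∃ (G K H : Type) (_ : Group G) (_ : TopologicalSpace G) (_ : Group K)
    (_ : TopologicalSpace K) (_ : Group H) (_ : TopologicalSpace H) (f₁ : G →* K) (f₂ : K →* H),
    IsTopologicalGroup G ∧ IsTopologicalGroup K ∧ IsTopologicalGroup H ∧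
    Continuous f₁ ∧ Function.Surjective f₁ ∧ IsOpenMap f₁ ∧
    Function.Bijective f₂ ∧ Semitop.{0} f₂ ∧ ¬ Semitop.{u} (f₂.comp f₁) := by
  refine ⟨GG, KD, KP, inferInstance, inferInstance, inferInstance, inferInstance, inferInstance,
    inferInstance, f1, f2, inferInstance, inferInstance, inferInstance,
    continuous_of_discreteTopology, fun x => ⟨⟨0, x⟩, rfl⟩, fun _ _ => isOpen_discrete _,
    Function.bijective_id, semitop_f2, not_semitop⟩

end Pool.Agent.Results.MP_c09033_al.NotSemitopological
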